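import Pool.Agent.K3h48.BM.Fact

/-!
# The local invariants
-/

set_option autoImplicit false
set_option linter.unusedSectionVars false

namespace Pool.Agent.K3h48.BM

open Polynomial IntermediateField
open Pool.Agent.K3h48.MN (ind ssum Gn kn Good GenBy IsFactor cs wt ind_zero)

/-- the local invariant of the cyclic algebra `(c, χ)` over `ℚ_r` -/
noncomputable def linv {ℓ p : ℕ} [hp : Fact p.Prime]
    (χ : (ZMod p)ˣ →* Multiplicative (ZMod ℓ)) {r : ℕ} [Fact r.Prime]
    (c : ℚ_[r]) : ZMod ℓ :=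
  if r = p then - ind χ ((lead c).val : ZMod p)
  else ((c.valuation : ℤ) : ZMod ℓ) * ind χ (r : ZMod p)

lemma linv_p {ℓ p : ℕ} [hp : Fact p.Prime] {χ : (ZMod p)ˣ →* Multiplicative (ZMod ℓ)} (c : ℚ_[p]) : linv χ c = - ind χ (lead c) := by
  rw [linv, if_pos rfl, ZMod.natCast_zmod_val]

lemma linv_ne {ℓ p : ℕ} [hp : Fact p.Prime] {χ : (ZMod p)ˣ →* Multiplicative (ZMod ℓ)} {r : ℕ} [Fact r.Prime] (h : r ≠ p) (c : ℚ_[r]) :
    linv χ c = ((c.valuation : ℤ) : ZMod ℓ) * ind χ (r : ZMod p) := by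
  rw [linv, if_neg h]

variable {ℓ p q : ℕ} [hℓ : Fact ℓ.Prime] [hp : Fact p.Prime] [hq : Fact q.Prime]
  {χ : (ZMod p)ˣ →* Multiplicative (ZMod ℓ)} {ψ : (ZMod q)ˣ →* Multiplicative (ZMod ℓ)}

lemma val_prod {r : ℕ} [Fact r.Prime] {I : Type*} (s : Finset I) (f : I → ℚ_[r])
    (h : ∀ i ∈ s, f i ≠ 0) : (∏ i ∈ s, f i).valuation = ∑ i ∈ s, (f i).valuation := by
  classical
  induction s using Finset.induction_on with
  | empty => rw [Finset.prod_empty, Finset.sum_empty, Padic.valuation_one]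
  | insert i s hi ih =>
    rw [Finset.prod_insert hi, Finset.sum_insert hi, Padic.valuation_mul
      (h i (Finset.mem_insert_self i s))
      (Finset.prod_ne_zero_iff.2 fun j hj => h j (Finset.mem_insert_of_mem hj)),
      ih fun j hj => h j (Finset.mem_insert_of_mem hj)]

lemma wt_p (m : ZMod ℓ) : wt χ ψ m p = 0 := by
  rw [wt]
  split_ifs with h
  · rw [ZMod.natCast_self, ind_zero]
  · rfl

lemma wt_q (hG : Good χ ψ) (m : ZMod ℓ) : wt χ ψ m q = 0 := by
  rw [wt]
  split_ifs with h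
  · rw [hG.q_zero]
  · rfl

variable {A : Type*} [Field A] [CharZero A] [IsAlgClosed A] [Algebra.IsAlgebraic ℚ A] {ζ : A}

theorem core (hG : Good χ ψ) (hζ : IsPrimitiveRoot ζ (p * q)) {e : Option (ZMod ℓ) → ℚ[X]}
    (he : ∀ i, Gn χ ψ (cs i).1 (cs i).2 ζ (e i)) {m : ZMod ℓ} (hm : m ≠ 0) {r : ℕ}
    [hr : Fact r.Prime] {v : Option (ZMod ℓ) → ℚ_[r]} (hv : ∀ j, v j ≠ 0)
    (hN : ∀ j, IsN (aeval ζ (e j) : A) (v j)) {b w : ℚ_[r]} (hb : b ≠ 0) (hw : w ≠ 0)
    (hprod : ∏ j, v j = b * w ^ ℓ) :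
    linv χ (v (some (-m))) = ((b.valuation : ℤ) : ZMod ℓ) * wt χ ψ m r := by
  classical
  have hi := he (some (-m))
  simp only [cs] at hi
  have h0 := he (some 0)
  simp only [cs] at h0
  by_cases hrp : r = p
  · subst hrp
    rw [linv_p, wt_p, mul_zero, (hN (some (-m))).ram hG hζ h0 (neg_ne_zero.2 hm) hi (hv _), neg_zero]
  rw [linv_ne hrp]
  by_cases hrq : r = q
  · subst hrq
    rw [wt_q hG, hG.q_zero, mul_zero, mul_zero]
  by_cases h1 : ind ψ (r : ZMod q) = m * ind χ (r : ZMod p)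
  · rw [wt, if_pos h1]
    by_cases h2 : ind χ (r : ZMod p) = 0
    · rw [h2, mul_zero, mul_zero]
    congr 1
    have h3 : ∀ j, j ≠ some (-m) → (((v j).valuation : ℤ) : ZMod ℓ) = 0 := by
      intro j hj
      refine (hN j).inert hζ (he j) hrp hrq ?_ (hv j)
      rw [kn, h1]
      have h5 : (cs j).1 * ind χ (r : ZMod p) + (cs j).2 * (m * ind χ (r : ZMod p)) =
          ((cs j).1 + (cs j).2 * m) * ind χ (r : ZMod p) := by ring
      rw [h5]
      refine mul_ne_zero ?_ h2
      match j with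
      | none => simp [cs]
      | some j =>
        simp only [cs, one_mul]
        intro h6
        exact hj (congrArg some (eq_neg_of_add_eq_zero_left h6))
    have h4 := congrArg (fun x : ℚ_[r] => ((x.valuation : ℤ) : ZMod ℓ)) hprod
    beta_reduce at h4
    rw [val_prod _ _ fun j _ => hv j, Padic.valuation_mul hb (pow_ne_zero _ hw),
      Padic.valuation_pow, Int.cast_sum, Finset.sum_eq_single (some (-m))] at h4
    · rw [h4]
      push_cast
      rw [ZMod.natCast_self, zero_mul, add_zero]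
    · exact fun j _ hj => h3 j hj
    · exact fun h => absurd (Finset.mem_univ _) h
  · rw [wt, if_neg h1, mul_zero]
    have h2 := (hN (some (-m))).inert hζ hi hrp hrq (by
      rw [kn]
      intro h3
      apply h1
      linear_combination h3) (hv _)
    rw [h2, zero_mul]

end Pool.Agent.K3h48.BM
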