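import Pool.Agent.K3h48.BM.Places

/-!
# Local invariants of zero-cycles
-/

set_option autoImplicit false
set_option linter.unusedSectionVars false

namespace Pool.Agent.K3h48.BM

open Polynomial
open Pool.Agent.K3h48.MN

universe u v w

variable {ℓ p q : ℕ} [hℓ : Fact ℓ.Prime] [hp : Fact p.Prime] [hq : Fact q.Prime]
  {χ : (ZMod p)ˣ →* Multiplicative (ZMod ℓ)} {ψ : (ZMod q)ˣ →* Multiplicative (ZMod ℓ)}
  {θ : Option (ZMod ℓ) → CyclotomicField (p * q) ℚ}
  {k : Type u} [Field k] [NumberField k] {a : k}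
  {r : ℕ} [hr : Fact r.Prime] {F : Type v} [Field F] [Algebra ℚ_[r] F] [FiniteDimensional ℚ_[r] F]
  {E : Type w} [Field E] [Algebra F E] [FiniteDimensional F E]

lemma val_tower (ι : k →+* F) (ha : a ≠ 0) [Algebra ℚ_[r] E] [IsScalarTower ℚ_[r] F E] :
    ((Algebra.norm ℚ_[r] (((algebraMap F E).comp ι) a)).valuation : ℤ) =
      Module.finrank F E * (Algebra.norm ℚ_[r] (ι a)).valuation := by
  have h1 : Algebra.norm ℚ_[r] (((algebraMap F E).comp ι) a) =
      Algebra.norm ℚ_[r] (ι a) ^ Module.finrank F E := by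
    rw [RingHom.comp_apply, ← Algebra.norm_norm (R := ℚ_[r]) (S := F), Algebra.norm_algebraMap,
      map_pow]
  rw [h1, Padic.valuation_pow]

theorem affine_tower (hG : Good χ ψ) (hθ : ∀ i, GenBy χ ψ (cs i).1 (cs i).2 (θ i))
    (ha : Obs χ ψ a) {G : Option (ZMod ℓ) → Finset k[X]}
    (hGf : ∀ i, ∀ g ∈ G i, IsFactor (minpoly ℚ (θ i)) g) {n : ℕ} (hn : ℓ ∣ n) (ι : k →+* F)
    {x y : E} (h : (algebraMap F E).comp ι a * y ^ n =
      eval₂ ((algebraMap F E).comp ι) x (∏ i, ∏ g ∈ G i, g)) {m : ZMod ℓ} (hm : m ≠ 0) :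
    linv χ (Algebra.norm ℚ_[r] (Algebra.norm F
      (val ((algebraMap F E).comp ι) a G x (some (-m))))) =
      (Module.finrank F E : ZMod ℓ) *
        ((((Algebra.norm ℚ_[r] (ι a)).valuation : ℤ) : ZMod ℓ) * wt χ ψ m r) := by
  let _ : Algebra ℚ_[r] E := ((algebraMap F E).comp (algebraMap ℚ_[r] F)).toAlgebra
  have hst : IsScalarTower ℚ_[r] F E := IsScalarTower.of_algebraMap_eq' rfl
  have hfd : FiniteDimensional ℚ_[r] E := FiniteDimensional.trans ℚ_[r] F E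
  rw [Algebra.norm_norm, affine hG hθ ha hGf hn _ h hm, val_tower ι ha.ne_zero]
  push_cast
  ring

theorem infinite_tower (hG : Good χ ψ) (hθ : ∀ i, GenBy χ ψ (cs i).1 (cs i).2 (θ i))
    (ha : a ≠ 0) {n : ℕ} (hn : ℓ ∣ n) (ι : k →+* F) {y : E}
    (h : (algebraMap F E).comp ι a * y ^ n = 1) {m : ZMod ℓ} (hm : m ≠ 0) :
    linv χ (Algebra.norm ℚ_[r] (Algebra.norm F (1 : E))) =
      (Module.finrank F E : ZMod ℓ) *
        ((((Algebra.norm ℚ_[r] (ι a)).valuation : ℤ) : ZMod ℓ) * wt χ ψ m r) := by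
  let _ : Algebra ℚ_[r] E := ((algebraMap F E).comp (algebraMap ℚ_[r] F)).toAlgebra
  have hst : IsScalarTower ℚ_[r] F E := IsScalarTower.of_algebraMap_eq' rfl
  have hfd : FiniteDimensional ℚ_[r] E := FiniteDimensional.trans ℚ_[r] F E
  rw [Algebra.norm_norm, infinite hG hθ ha hn _ h hm, val_tower ι ha]
  push_cast
  ring

end Pool.Agent.K3h48.BM
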