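import Pool.Agent.K3h48.BM.Pad

/-!
# Local norms
-/

set_option autoImplicit false
set_option linter.unusedSectionVars false

namespace Pool.Agent.K3h48.BM

open Polynomial IntermediateField
open Pool.Agent.K3h48.MN (ind ssum Gn kn Good GenBy IsFactor cs wt inert ram pq_ne)

section defs

variable {A : Type*} [Field A] [CharZero A] [Algebra.IsAlgebraic ℚ A]

lemma int (θ : A) : IsIntegral ℚ θ := Algebra.IsIntegral.isIntegral θ

/-- the matrix of multiplication by `θ` -/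
noncomputable def mat (θ : A) : Matrix (Fin (adjoin.powerBasis (int θ)).dim)
    (Fin (adjoin.powerBasis (int θ)).dim) ℚ :=
  Algebra.leftMulMatrix (adjoin.powerBasis (int θ)).basis (adjoin.powerBasis (int θ)).gen

lemma mat_charpoly (θ : A) : (mat θ).charpoly = minpoly ℚ θ := by
  rw [mat, charpoly_leftMulMatrix, adjoin.powerBasis_gen, minpoly_gen]

lemma mat_card (θ : A) :
    Fintype.card (Fin (adjoin.powerBasis (int θ)).dim) = (minpoly ℚ θ).natDegree := by
  rw [Fintype.card_fin, adjoin.powerBasis_dim]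

lemma mat_norm (θ : A) (D : ℚ[X]) :
    (aeval (mat θ) D).det = Algebra.norm ℚ (aeval (AdjoinSimple.gen ℚ θ) D) := by
  have h := Algebra.norm_eq_matrix_det (adjoin.powerBasis (int θ)).basis
    (aeval (adjoin.powerBasis (int θ)).gen D)
  rw [mat, aeval_algHom_apply, ← h]
  rfl

variable {r : ℕ} [hr : Fact r.Prime]

/-- norms from the completion of the field of `θ` -/
def IsN (θ : A) (c : ℚ_[r]) : Prop :=
  ∃ D : ℚ_[r][X], c = (aeval ((mat θ).map (algebraMap ℚ ℚ_[r])) D).det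

lemma IsN.one (θ : A) : IsN θ (1 : ℚ_[r]) := ⟨1, by rw [map_one, Matrix.det_one]⟩

lemma IsN.mul {θ : A} {c c' : ℚ_[r]} (h : IsN θ c) (h' : IsN θ c') : IsN θ (c * c') := by
  obtain ⟨D, rfl⟩ := h
  obtain ⟨D', rfl⟩ := h'
  exact ⟨D * D', by rw [map_mul, Matrix.det_mul]⟩

lemma IsN.prod {θ : A} {I : Type*} (s : Finset I) (f : I → ℚ_[r]) (h : ∀ i ∈ s, IsN θ (f i)) :
    IsN θ (∏ i ∈ s, f i) := by
  classical
  induction s using Finset.induction_on with
  | empty => rw [Finset.prod_empty]; exact IsN.one θ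
  | insert i s hi ih =>
    rw [Finset.prod_insert hi]
    exact (h i (Finset.mem_insert_self i s)).mul (ih fun j hj => h j (Finset.mem_insert_of_mem hj))

lemma IsN.approx {θ : A} {c : ℚ_[r]} (h : IsN θ c) (hc : c ≠ 0) :
    ∃ z : ℚ⟮θ⟯, z ≠ 0 ∧ Algebra.norm ℚ z ≠ 0 ∧
      ((Algebra.norm ℚ z : ℚ) : ℚ_[r]).valuation = c.valuation ∧
      lead ((Algebra.norm ℚ z : ℚ) : ℚ_[r]) = lead c := by
  obtain ⟨D, rfl⟩ := h
  obtain ⟨D', hD'⟩ := Pool.Agent.K3h48.BM.approx (mat θ) D hc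
  obtain ⟨-, h1, h2, h3⟩ := close hD'
  rw [mat_norm] at h1 h2 h3
  have h4 : Algebra.norm ℚ (aeval (AdjoinSimple.gen ℚ θ) D') ≠ 0 := by
    intro h
    apply h1
    rw [h, Rat.cast_zero]
  refine ⟨_, ?_, h4, h2, h3⟩
  intro h
  have : FiniteDimensional ℚ ℚ⟮θ⟯ := adjoin.finiteDimensional (int θ)
  rw [h, Algebra.norm_zero] at h4
  exact h4 rfl

end defs

section facts

variable {ℓ p q : ℕ} [hℓ : Fact ℓ.Prime] [hp : Fact p.Prime] [hq : Fact q.Prime]
  {χ : (ZMod p)ˣ →* Multiplicative (ZMod ℓ)} {ψ : (ZMod q)ˣ →* Multiplicative (ZMod ℓ)}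
variable {A : Type*} [Field A] [CharZero A] [IsAlgClosed A] [Algebra.IsAlgebraic ℚ A] {ζ : A}

theorem IsN.inert {s t : ZMod ℓ} (hζ : IsPrimitiveRoot ζ (p * q)) {g : ℚ[X]} (hg : Gn χ ψ s t ζ g)
    {r : ℕ} [hr : Fact r.Prime] (hrp : r ≠ p) (hrq : r ≠ q) (hk : kn χ ψ s t r ≠ 0) {c : ℚ_[r]}
    (h : IsN (aeval ζ g : A) c) (hc : c ≠ 0) : ((c.valuation : ℤ) : ZMod ℓ) = 0 := by
  obtain ⟨z, hz, hz1, hz2, -⟩ := h.approx hc
  have h1 := Pool.Agent.K3h48.MN.inert hζ hg hr.out hrp hrq hk z hz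
  rw [Padic.valuation_ratCast] at hz2
  rw [hz2] at h1
  rwa [ZMod.intCast_zmod_eq_zero_iff_dvd]

theorem IsN.ram (hG : Good χ ψ) (hζ : IsPrimitiveRoot ζ (p * q)) {g₀ g : ℚ[X]}
    (h0 : Gn χ ψ 0 1 ζ g₀) {j : ZMod ℓ} (hj : j ≠ 0) (hg : Gn χ ψ j 1 ζ g) {c : ℚ_[p]}
    (h : IsN (aeval ζ g : A) c) (hc : c ≠ 0) : ind χ (lead c) = 0 := by
  obtain ⟨z, hz, hz1, -, hz3⟩ := h.approx hc
  rw [← hz3, ind_lead_rat χ hG.neg_left hz1]
  exact Pool.Agent.K3h48.MN.ram hζ h0 hj hg hG.surj_left hG.surj_right hG.ne hG.p_zero hG.neg_left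
    z hz

end facts

section points

variable {A : Type*} [Field A] [CharZero A] [Algebra.IsAlgebraic ℚ A]
variable {k : Type*} [Field k] [CharZero k] {r : ℕ} [hr : Fact r.Prime] {E : Type*} [Field E]
  [Algebra ℚ_[r] E] [FiniteDimensional ℚ_[r] E] (ι : k →+* E)

lemma maps (r : ℕ) [hr : Fact r.Prime] {E : Type*} [Field E]
    [Algebra ℚ_[r] E] (ι : k →+* E) (θ : A) : ((mat θ).map (algebraMap ℚ k)).map ι =
    ((mat θ).map (algebraMap ℚ ℚ_[r])).map (algebraMap ℚ_[r] E) := by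
  have : CharZero E := charZero_of_injective_algebraMap (algebraMap ℚ_[r] E).injective
  ext i j
  simp

/-- values of factors -/
theorem IsN.factor {θ : A} {g : k[X]} (hg : IsFactor (minpoly ℚ θ) g)
    (hdeg : g.natDegree = (minpoly ℚ θ).natDegree) (x : E) :
    IsN θ (Algebra.norm ℚ_[r] (eval₂ ι x g)) := by
  obtain ⟨h, hh⟩ := hg.dvd
  have h1 := eval_factor ι ((mat θ).map (algebraMap ℚ k)) hg.irreducible hg.monic
    (hdeg.trans (mat_card θ).symm) (h := h) (by rwa [Matrix.charpoly_map, mat_charpoly]) x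
  rw [h1, maps r ι θ]
  exact norm_det _ _

/-- if the field has a root in `E` then all norms from `E` are norms -/
theorem IsN.root {θ : A} {t : E} (ht : eval₂ (algebraMap ℚ_[r] E) t
    ((minpoly ℚ θ).map (algebraMap ℚ ℚ_[r])) = 0) (e : E) : IsN θ (Algebra.norm ℚ_[r] e) := by
  have h1 : (((mat θ).map (algebraMap ℚ ℚ_[r])).map (algebraMap ℚ_[r] E)).charpoly =
      ((minpoly ℚ θ).map (algebraMap ℚ ℚ_[r])).map (algebraMap ℚ_[r] E) := by
    rw [Matrix.charpoly_map, Matrix.charpoly_map, mat_charpoly]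
  obtain ⟨c, hc⟩ := det_surj (((mat θ).map (algebraMap ℚ ℚ_[r])).map (algebraMap ℚ_[r] E))
    (by rw [h1]; exact ((minpoly.irreducible (int θ)).separable.map).map) (t := t)
    (by rw [h1, eval_map]; exact ht) e
  rw [← hc]
  exact norm_det _ _

/-- the field of a factor -/
theorem root_of_factor {θ : A} {g : k[X]} (hg : IsFactor (minpoly ℚ θ) g)
    (hdeg : g.natDegree = (minpoly ℚ θ).natDegree) {x : E} (hx : eval₂ ι x g = 0) :
    ∃ t : E, eval₂ (algebraMap ℚ_[r] E) t ((minpoly ℚ θ).map (algebraMap ℚ ℚ_[r])) = 0 := by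
  have : CharZero E := charZero_of_injective_algebraMap (algebraMap ℚ_[r] E).injective
  set P := (minpoly ℚ θ).map (algebraMap ℚ k) with hP
  have hPm : P.Monic := (minpoly.monic (int θ)).map _
  have hPd : P.natDegree = (minpoly ℚ θ).natDegree := natDegree_map _
  obtain ⟨η, hη⟩ := hg.root
  have hPne : P.natDegree ≠ 0 := by
    rw [hPd]
    exact (minpoly.natDegree_pos (int θ)).ne'
  have hnt : Nontrivial (AdjoinRoot P) := AdjoinRoot.nontrivial P (by
    rw [Ne, degree_eq_natDegree hPm.ne_zero]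
    exact_mod_cast hPne)
  have hmin : g = minpoly k η := minpoly.eq_of_irreducible_of_monic hg.irreducible hη hg.monic
  have hli := linearIndependent_pow (K := k) η
  have hfin : Module.finrank k (AdjoinRoot P) = P.natDegree := by
    rw [(AdjoinRoot.powerBasis' hPm).finrank, AdjoinRoot.powerBasis'_dim]
  have hfd : FiniteDimensional k (AdjoinRoot P) := (AdjoinRoot.powerBasis' hPm).finite
  have hspan := hli.span_eq_top_of_card_eq_finrank' (by
    rw [Fintype.card_fin, ← hmin, hdeg, hfin, hPd])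
  have hmem : AdjoinRoot.root P ∈ Submodule.span k (Set.range fun i : Fin (minpoly k η).natDegree =>
      η ^ (i : ℕ)) := by
    rw [hspan]; trivial
  obtain ⟨c, hc⟩ := (Submodule.mem_span_range_iff_exists_fun k).1 hmem
  let h' : k[X] := ∑ i, C (c i) * X ^ (i : ℕ)
  have h1 : aeval η h' = AdjoinRoot.root P := by
    rw [← hc, map_sum]
    refine Finset.sum_congr rfl fun i _ => ?_
    rw [map_mul, aeval_C, map_pow, aeval_X, Algebra.smul_def]
  have h2 : g ∣ P.comp h' := by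
    rw [hmin, minpoly.dvd_iff, aeval_comp, h1, aeval_def, AdjoinRoot.algebraMap_eq,
      AdjoinRoot.eval₂_root]
  obtain ⟨d, hd⟩ := h2
  refine ⟨eval₂ ι x h', ?_⟩
  have h3 : eval₂ ι (eval₂ ι x h') P = 0 := by
    rw [← eval₂_comp, hd, eval₂_mul, hx, zero_mul]
  rw [← h3, hP, eval₂_map, eval₂_map]
  congr 1
  exact RingHom.ext_rat _ _

end points

end Pool.Agent.K3h48.BM
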