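import Mathlib

/-!
# Norms of determinants
-/

set_option autoImplicit false

namespace Pool.Agent.K3h48.BM

open Polynomial Matrix

section norm

variable {F E : Type*} [Field F] [Field E] [Algebra F E] [FiniteDimensional F E]
  {n : Type*} [Fintype n] [DecidableEq n]

/-- norms of determinants of polynomials in a matrix over the base field are such determinants -/
theorem norm_det (M : Matrix n n F) (c : E[X]) :
    ∃ D : F[X], Algebra.norm F (aeval (M.map (algebraMap F E)) c).det = (aeval M D).det := by
  classical
  let b := Module.finBasis F E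
  let lam : E →+* Matrix (Fin (Module.finrank F E)) (Fin (Module.finrank F E)) F :=
    (Algebra.leftMulMatrix b : E →ₐ[F] _).toRingHom
  have hlam : ∀ x : F, lam (algebraMap F E x) = algebraMap F _ x := fun x =>
    (Algebra.leftMulMatrix b).commutes x
  let f : F[X] →+* Matrix n n F := (aeval M : F[X] →ₐ[F] _).toRingHom
  let Dm : Matrix (Fin (Module.finrank F E)) (Fin (Module.finrank F E)) F[X] := fun a a' =>
    ∑ j ∈ Finset.range (c.natDegree + 1), C (lam (c.coeff j) a a') * X ^ j
  refine ⟨Dm.det, ?_⟩
  have h1 : Algebra.norm F (aeval (M.map (algebraMap F E)) c).det =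
      (lam (aeval (M.map (algebraMap F E)) c).det).det := Algebra.norm_eq_matrix_det b _
  have h2 : (aeval M Dm.det).det = (f Dm.det).det := rfl
  rw [h1, h2, det_det, det_det]
  rw [← Matrix.det_submatrix_equiv_self (Equiv.prodComm (Fin (Module.finrank F E)) n)]
  congr 1
  ext ⟨a, i⟩ ⟨a', j⟩
  have e1 : (aeval (M.map (algebraMap F E)) c) i j =
      ∑ l ∈ Finset.range (c.natDegree + 1), c.coeff l * algebraMap F E ((M ^ l) i j) := by
    rw [aeval_eq_sum_range, Matrix.sum_apply]
    refine Finset.sum_congr rfl fun l _ => ?_
    rw [Matrix.smul_apply, smul_eq_mul]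
    congr 1
    have h3 : (M.map (algebraMap F E)) ^ l = (M ^ l).map (algebraMap F E) := by
      have h4 := map_pow (algebraMap F E).mapMatrix M l
      rw [RingHom.mapMatrix_apply, RingHom.mapMatrix_apply] at h4
      exact h4.symm
    rw [h3, Matrix.map_apply]
  have e2 : (f (Dm a a')) i j =
      ∑ l ∈ Finset.range (c.natDegree + 1), lam (c.coeff l) a a' * (M ^ l) i j := by
    change (f (∑ j ∈ Finset.range (c.natDegree + 1), C (lam (c.coeff j) a a') * X ^ j)) i j = _
    rw [map_sum, Matrix.sum_apply]
    refine Finset.sum_congr rfl fun l _ => ?_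
    have h3 : f (C (lam (c.coeff l) a a') * X ^ l) = (lam (c.coeff l) a a') • M ^ l := by
      change aeval M (C (lam (c.coeff l) a a') * X ^ l) = _
      rw [map_mul, aeval_C, map_pow, aeval_X, Algebra.smul_def]
    rw [h3, Matrix.smul_apply, smul_eq_mul]
  rw [Matrix.submatrix_apply]
  simp only [Equiv.prodComm_apply, Prod.swap_prod_mk, Matrix.comp_apply, Matrix.map_apply]
  rw [e1, e2, map_sum, Matrix.sum_apply]
  refine Finset.sum_congr rfl fun l _ => ?_
  rw [map_mul, hlam, Matrix.algebraMap_eq_diagonal, Matrix.mul_diagonal]
  rfl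

end norm

section roots

variable {L : Type*} [Field L] {n : Type*} [Fintype n] [DecidableEq n]

/-- the determinant of a polynomial in a matrix as a function of the polynomial -/
noncomputable def detHom (M : Matrix n n L) : L[X] →* L :=
  (Matrix.detMonoidHom (n := n) (R := L)).comp ((aeval M : L[X] →ₐ[L] Matrix n n L) : L[X] →* Matrix n n L)

lemma detHom_apply (M : Matrix n n L) (c : L[X]) : detHom M c = (aeval M c).det := rfl

/-- determinants of polynomials in a matrix -/
theorem det_aeval (M : Matrix n n L) (hM : M.charpoly.Splits) (c : L[X]) (hc : c.Splits) :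
    (aeval M c).det = (M.charpoly.roots.map fun ρ => c.eval ρ).prod := by
  classical
  have hcard : Multiset.card M.charpoly.roots = Fintype.card n := by
    rw [← hM.natDegree_eq_card_roots, Matrix.charpoly_natDegree_eq_dim]
  let ev : L[X] →* L :=
    { toFun := fun c => (M.charpoly.roots.map fun ρ => c.eval ρ).prod
      map_one' := by simp
      map_mul' := fun a b => by simp [Multiset.prod_map_mul] }
  have hlin : ∀ s : L, detHom M (X - C s) = ev (X - C s) := by
    intro s
    have h1 : M.charpoly.eval s = (M.charpoly.roots.map fun ρ => s - ρ).prod := by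
      conv_lhs => rw [hM.eq_prod_roots_of_monic M.charpoly_monic]
      rw [eval_multiset_prod, Multiset.map_map]
      congr 1
      refine Multiset.map_congr rfl fun ρ _ => ?_
      simp
    have h2 : aeval M (X - C s) = -(Matrix.scalar n s - M) := by
      rw [map_sub, aeval_X, aeval_C, neg_sub]
      congr 1
    have h3 : (Matrix.scalar n s - M).det = M.charpoly.eval s := by
      rw [Matrix.eval_charpoly]
    have h5 : ev (X - C s) =
        (M.charpoly.roots.map fun ρ => (-1) * (s - ρ)).prod := by
      change (M.charpoly.roots.map fun ρ => (X - C s).eval ρ).prod = _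
      congr 1
      refine Multiset.map_congr rfl fun ρ _ => ?_
      simp
    rw [h5, Multiset.prod_map_mul, Multiset.map_const', Multiset.prod_replicate, hcard,
      detHom_apply, h2, Matrix.det_neg, h3, h1]
  have hC : ∀ s : L, detHom M (C s) = ev (C s) := by
    intro s
    have h1 : ev (C s) = (M.charpoly.roots.map fun _ => s).prod := by
      change (M.charpoly.roots.map fun ρ => (C s).eval ρ).prod = _
      congr 1
      refine Multiset.map_congr rfl fun ρ _ => ?_
      simp
    rw [h1, Multiset.map_const', Multiset.prod_replicate, hcard, detHom_apply, aeval_C,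
      Matrix.algebraMap_eq_diagonal, Matrix.det_diagonal]
    simp
  have h : detHom M c = ev c := by
    conv_lhs => rw [hc.eq_prod_roots]
    conv_rhs => rw [hc.eq_prod_roots]
    rw [map_mul, map_mul, hC, map_multiset_prod, map_multiset_prod, Multiset.map_map,
      Multiset.map_map]
    congr 2
    exact Multiset.map_congr rfl fun s _ => hlin s
  exact h

end roots

section factor

variable {k E : Type*} [Field k] [Field E] (ι : k →+* E) {n : Type*} [Fintype n] [DecidableEq n]

lemma map_aeval (M : Matrix n n k) (h : k[X]) :
    (aeval M h).map ι = aeval (M.map ι) (h.map ι) := by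
  have e : ∀ m : ℕ, (M ^ m).map ι = (M.map ι) ^ m := by
    intro m
    have h4 := map_pow ι.mapMatrix M m
    rwa [RingHom.mapMatrix_apply, RingHom.mapMatrix_apply] at h4
  have h1 : ι.mapMatrix (aeval M h) = aeval (M.map ι) (h.map ι) := by
    induction h using Polynomial.induction_on' with
    | add a b ha hb => rw [map_add, map_add, ha, hb, Polynomial.map_add, map_add]
    | monomial m a =>
      rw [aeval_monomial, Polynomial.map_monomial, aeval_monomial, map_mul, map_pow,
        RingHom.mapMatrix_apply, RingHom.mapMatrix_apply, Matrix.algebraMap_eq_diagonal,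
        Matrix.algebraMap_eq_diagonal]
      congr 1
      ext i j
      rw [Matrix.map_apply, Matrix.diagonal_apply, Matrix.diagonal_apply]
      split_ifs
      · rfl
      · exact map_zero _
  exact h1

/-- the values of a factor -/
theorem eval_factor (M : Matrix n n k) {g h : k[X]} (hirr : Irreducible g) (hmon : g.Monic)
    (hdeg : g.natDegree = Fintype.card n) (hdvd : M.charpoly ∣ g.comp h) (x : E) :
    eval₂ ι x g = (aeval (M.map ι) (C x - h.map ι)).det := by
  have hpos : 0 < Fintype.card n := hdeg ▸ hirr.natDegree_pos
  have hne : Nonempty n := Fintype.card_pos_iff.1 hpos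
  have h0 : aeval (aeval M h) g = 0 := by
    rw [← aeval_comp]
    obtain ⟨d, hd⟩ := hdvd
    rw [hd, map_mul, Matrix.aeval_self_charpoly, zero_mul]
  have h1 : g = minpoly k (aeval M h) := minpoly.eq_of_irreducible_of_monic hirr h0 hmon
  have h2 : g ∣ (aeval M h).charpoly := h1 ▸ Matrix.minpoly_dvd_charpoly _
  have h3 : g = (aeval M h).charpoly := by
    refine (eq_of_monic_of_dvd_of_natDegree_le hmon (Matrix.charpoly_monic _) h2 ?_).symm
    rw [Matrix.charpoly_natDegree_eq_dim, hdeg]
  have h4 : aeval (M.map ι) (C x - h.map ι) = Matrix.scalar n x - (aeval M h).map ι := by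
    rw [map_sub, aeval_C, map_aeval]
    congr 1
  rw [h4, ← Matrix.eval_charpoly, Matrix.charpoly_map, ← h3, eval_map]

end factor

section branch

variable {E : Type*} [Field E] {n : Type*} [Fintype n] [DecidableEq n]

/-- if the characteristic polynomial is separable and has a root then all elements are
determinants of polynomials -/
theorem det_surj (M : Matrix n n E) (hs : M.charpoly.Separable) {t : E}
    (ht : M.charpoly.eval t = 0) (e : E) : ∃ c : E[X], (aeval M c).det = e := by
  classical
  obtain ⟨Q, hQ⟩ := dvd_iff_isRoot.2 (show M.charpoly.IsRoot t from ht)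
  have hQt : Q.eval t ≠ 0 := by
    intro h
    obtain ⟨R, hR⟩ := dvd_iff_isRoot.2 (show Q.IsRoot t from h)
    have h1 : (X - C t) * (X - C t) ∣ M.charpoly := ⟨R, by rw [hQ, hR]; ring⟩
    exact not_isUnit_X_sub_C t (isUnit_of_self_mul_dvd_separable hs h1)
  let c : E[X] := C 1 + C ((e - 1) / Q.eval t) * Q
  refine ⟨c, ?_⟩
  let L := AlgebraicClosure E
  apply (algebraMap E L).injective
  have h1 : algebraMap E L (aeval M c).det = (aeval (M.map (algebraMap E L))
      (c.map (algebraMap E L))).det := by
    rw [← map_aeval, RingHom.map_det, RingHom.mapMatrix_apply]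
  rw [h1, det_aeval _ (IsAlgClosed.splits _) _ (IsAlgClosed.splits _), Matrix.charpoly_map, hQ,
    Polynomial.map_mul, roots_mul, Multiset.map_add, Multiset.prod_add]
  · have h2 : ((X - C t).map (algebraMap E L)).roots = {algebraMap E L t} := by
      rw [Polynomial.map_sub, map_X, map_C, roots_X_sub_C]
    rw [h2, Multiset.map_singleton, Multiset.prod_singleton]
    have h3 : ((Q.map (algebraMap E L)).roots.map fun ρ =>
        eval ρ (c.map (algebraMap E L))).prod = 1 := by
      refine Multiset.prod_eq_one ?_
      intro y hy
      obtain ⟨ρ, hρ, rfl⟩ := Multiset.mem_map.1 hy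
      have h4 : eval ρ (Q.map (algebraMap E L)) = 0 := isRoot_of_mem_roots hρ
      simp [c, h4]
    have h4 : eval (algebraMap E L t) (c.map (algebraMap E L)) = algebraMap E L e := by
      rw [eval_map_algebraMap, aeval_algebraMap_apply]
      congr 1
      rw [coe_aeval_eq_eval]
      simp only [c, eval_add, eval_mul, eval_C]
      rw [div_mul_cancel₀ _ hQt]
      ring
    rw [h3, h4, mul_one]
  · rw [← Polynomial.map_mul, ← hQ]
    exact (M.charpoly_monic.map _).ne_zero

end branch

end Pool.Agent.K3h48.BM
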