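import Pool.Agent.K3h48.BM.Mat
import Pool.Agent.K3h48.MN.Final

/-!
# Leading coefficients of p-adic numbers and approximation
-/

set_option autoImplicit false
set_option linter.unusedSectionVars false

namespace Pool.Agent.K3h48.BM

open Polynomial Matrix

section lead

variable {r : ℕ} [hr : Fact r.Prime]

/-- the residue class of `c r^{-v}`, where `v` is the valuation of `c` -/
noncomputable def lead (c : ℚ_[r]) : ZMod r :=
  if h : ‖c * (r : ℚ_[r]) ^ (-c.valuation)‖ ≤ 1 then PadicInt.toZMod ⟨_, h⟩ else 0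

lemma r_norm (v : ℤ) : ‖(r : ℚ_[r]) ^ (-v)‖ = (r : ℝ) ^ v := by
  rw [norm_zpow, Padic.norm_p, _root_.inv_zpow, _root_.zpow_neg, inv_inv]

lemma norm_unit {c : ℚ_[r]} (hc : c ≠ 0) : ‖c * (r : ℚ_[r]) ^ (-c.valuation)‖ = 1 := by
  rw [norm_mul, r_norm, Padic.norm_eq_zpow_neg_valuation hc, ← zpow_add₀, neg_add_cancel, zpow_zero]
  exact Nat.cast_ne_zero.2 hr.out.ne_zero

lemma lead_eq {c : ℚ_[r]} (hc : c ≠ 0) :
    lead c = PadicInt.toZMod ⟨c * (r : ℚ_[r]) ^ (-c.valuation), (norm_unit hc).le⟩ := by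
  rw [lead, dif_pos (norm_unit hc).le]

lemma toZMod_ne {u : ℤ_[r]} (hu : ‖u‖ = 1) : PadicInt.toZMod u ≠ 0 := by
  intro h
  have h1 : u ∈ RingHom.ker (PadicInt.toZMod : ℤ_[r] →+* ZMod r) := h
  rw [PadicInt.ker_toZMod, IsLocalRing.mem_maximalIdeal, PadicInt.mem_nonunits] at h1
  exact h1.ne hu

lemma toZMod_eq {u u' : ℤ_[r]} (h : ‖u - u'‖ < 1) : PadicInt.toZMod u = PadicInt.toZMod u' := by
  rw [← sub_eq_zero, ← map_sub]
  have h1 : u - u' ∈ RingHom.ker (PadicInt.toZMod : ℤ_[r] →+* ZMod r) := by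
    rw [PadicInt.ker_toZMod, IsLocalRing.mem_maximalIdeal, PadicInt.mem_nonunits]
    exact h
  exact h1

lemma lead_ne {c : ℚ_[r]} (hc : c ≠ 0) : lead c ≠ 0 := by
  rw [lead_eq hc]
  exact toZMod_ne (norm_unit hc)

lemma close {c c' : ℚ_[r]} (h : ‖c' - c‖ < ‖c‖) :
    c ≠ 0 ∧ c' ≠ 0 ∧ c'.valuation = c.valuation ∧ lead c' = lead c := by
  have hc : c ≠ 0 := by
    rintro rfl
    rw [norm_zero] at h
    exact absurd h (not_lt.2 (norm_nonneg _))
  have hn : ‖c'‖ = ‖c‖ := by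
    have h1 : c' = (c' - c) + c := by ring
    rw [h1, Padic.add_eq_max_of_ne h.ne, max_eq_right h.le]
  have hc' : c' ≠ 0 := by
    rintro rfl
    rw [norm_zero] at hn
    exact hc (norm_eq_zero.1 hn.symm)
  have hv : c'.valuation = c.valuation := by
    rw [Padic.norm_eq_zpow_neg_valuation hc, Padic.norm_eq_zpow_neg_valuation hc'] at hn
    have h1 : (1 : ℝ) < r := by exact_mod_cast hr.out.one_lt
    have h2 := zpow_right_injective₀ (by positivity) h1.ne' hn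
    simpa using h2
  refine ⟨hc, hc', hv, ?_⟩
  rw [lead_eq hc, lead_eq hc']
  apply toZMod_eq
  change ‖c' * (r : ℚ_[r]) ^ (-c'.valuation) - c * (r : ℚ_[r]) ^ (-c.valuation)‖ < 1
  rw [hv, ← sub_mul]
  rw [← norm_unit hc, norm_mul, norm_mul]
  refine mul_lt_mul_of_pos_right h ?_
  rw [r_norm]
  exact zpow_pos (Nat.cast_pos.2 hr.out.pos) _

lemma lead_mul {c c' : ℚ_[r]} (hc : c ≠ 0) (hc' : c' ≠ 0) : lead (c * c') = lead c * lead c' := by
  rw [lead_eq hc, lead_eq hc', lead_eq (mul_ne_zero hc hc')]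
  let u : ℤ_[r] := ⟨c * (r : ℚ_[r]) ^ (-c.valuation), (norm_unit hc).le⟩
  let u' : ℤ_[r] := ⟨c' * (r : ℚ_[r]) ^ (-c'.valuation), (norm_unit hc').le⟩
  refine Eq.trans ?_ (map_mul PadicInt.toZMod u u')
  refine congrArg PadicInt.toZMod (Subtype.ext ?_)
  change c * c' * (r : ℚ_[r]) ^ (-(c * c').valuation) =
    (c * (r : ℚ_[r]) ^ (-c.valuation)) * (c' * (r : ℚ_[r]) ^ (-c'.valuation))
  rw [Padic.valuation_mul hc hc', neg_add, zpow_add₀ (Nat.cast_ne_zero.2 hr.out.ne_zero)]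
  ring

lemma lead_unit {u : ℤ_[r]} (hu : ‖u‖ = 1) : lead (u : ℚ_[r]) = PadicInt.toZMod u := by
  have h0 : (u : ℚ_[r]) ≠ 0 := by
    intro h
    rw [PadicInt.norm_def, h] at hu
    simp at hu
  have hv : (u : ℚ_[r]).valuation = 0 := by
    have h1 := Padic.norm_eq_zpow_neg_valuation h0
    rw [PadicInt.norm_def] at hu
    rw [hu] at h1
    have h2 : (1 : ℝ) < r := by exact_mod_cast hr.out.one_lt
    have h3 : (r : ℝ) ^ (0 : ℤ) = (r : ℝ) ^ (-(u : ℚ_[r]).valuation) := by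
      rw [zpow_zero]; exact h1
    have h4 := zpow_right_injective₀ (by positivity) h2.ne' h3
    omega
  rw [lead_eq h0]
  refine congrArg PadicInt.toZMod (Subtype.ext ?_)
  change (u : ℚ_[r]) * (r : ℚ_[r]) ^ (-(u : ℚ_[r]).valuation) = u
  rw [hv, neg_zero, zpow_zero, mul_one]

lemma lead_one : lead (1 : ℚ_[r]) = 1 := by
  have h := lead_unit (r := r) (u := 1) norm_one
  rw [map_one] at h
  exact_mod_cast h

lemma lead_neg_one : lead (-1 : ℚ_[r]) = -1 := by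
  have h := lead_unit (r := r) (u := -1) (by rw [norm_neg, norm_one])
  rw [map_neg, map_one] at h
  exact_mod_cast h

lemma lead_self : lead (r : ℚ_[r]) = 1 := by
  have h0 : (r : ℚ_[r]) ≠ 0 := Nat.cast_ne_zero.2 hr.out.ne_zero
  rw [lead_eq h0, ← map_one (PadicInt.toZMod (p := r))]
  refine congrArg PadicInt.toZMod (Subtype.ext ?_)
  change (r : ℚ_[r]) * (r : ℚ_[r]) ^ (-(r : ℚ_[r]).valuation) = 1
  rw [Padic.valuation_p, _root_.zpow_neg_one, mul_inv_cancel₀ h0]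

lemma lead_nat {n : ℕ} (hn : ¬ r ∣ n) : lead (n : ℚ_[r]) = n := by
  have h1 : ‖((n : ℤ_[r]))‖ = 1 := by
    rw [PadicInt.norm_natCast_eq_one_iff]
    exact (hr.out.coprime_iff_not_dvd.2 hn)
  have h := lead_unit h1
  rw [map_natCast] at h
  exact_mod_cast h

/-- approximation of determinants -/
theorem approx {n : Type*} [Fintype n] [DecidableEq n] (M : Matrix n n ℚ) (D : ℚ_[r][X])
    (hD : (aeval (M.map (algebraMap ℚ ℚ_[r])) D).det ≠ 0) :
    ∃ D' : ℚ[X], ‖(((aeval M D').det : ℚ) : ℚ_[r]) -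
      (aeval (M.map (algebraMap ℚ ℚ_[r])) D).det‖ <
        ‖(aeval (M.map (algebraMap ℚ ℚ_[r])) D).det‖ := by
  set Mr := M.map (algebraMap ℚ ℚ_[r]) with hMr
  let N := D.natDegree + 1
  let f : (Fin N → ℚ_[r]) → ℚ_[r] := fun c => (∑ j, c j • Mr ^ (j : ℕ)).det
  have hf : Continuous f := by
    refine Continuous.matrix_det ?_
    refine continuous_finsetSum _ fun j _ => ?_
    exact (continuous_apply j).smul continuous_const
  let c₀ : Fin N → ℚ_[r] := fun j => D.coeff j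
  have h0 : f c₀ = (aeval Mr D).det := by
    change (∑ j : Fin N, D.coeff j • Mr ^ (j : ℕ)).det = _
    rw [aeval_eq_sum_range, Finset.sum_range]
  have hopen : IsOpen {c | ‖f c - f c₀‖ < ‖f c₀‖} :=
    isOpen_lt ((hf.sub continuous_const).norm) continuous_const
  have hdense : DenseRange (Pi.map fun _ : Fin N => ((↑) : ℚ → ℚ_[r])) :=
    DenseRange.piMap fun _ => Padic.denseRange_ratCast r
  obtain ⟨c, hc⟩ := hdense.exists_mem_open hopen ⟨c₀, by
    change ‖f c₀ - f c₀‖ < ‖f c₀‖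
    rw [sub_self, norm_zero, norm_pos_iff, h0]
    exact hD⟩
  refine ⟨∑ j : Fin N, C (c j) * X ^ (j : ℕ), ?_⟩
  have h1 : (((aeval M (∑ j : Fin N, C (c j) * X ^ (j : ℕ))).det : ℚ) : ℚ_[r]) =
      f (Pi.map (fun _ : Fin N => ((↑) : ℚ → ℚ_[r])) c) := by
    have h2 : (((aeval M (∑ j : Fin N, C (c j) * X ^ (j : ℕ))).det : ℚ) : ℚ_[r]) =
        algebraMap ℚ ℚ_[r] (aeval M (∑ j : Fin N, C (c j) * X ^ (j : ℕ))).det := by simp
    rw [h2, RingHom.map_det, RingHom.mapMatrix_apply, map_aeval]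
    change _ = (∑ j, (Pi.map (fun _ : Fin N => ((↑) : ℚ → ℚ_[r])) c) j • Mr ^ (j : ℕ)).det
    congr 1
    rw [Polynomial.map_sum, map_sum]
    refine Finset.sum_congr rfl fun j _ => ?_
    rw [Polynomial.map_mul, Polynomial.map_pow, map_X, map_C, map_mul, aeval_C, map_pow, aeval_X,
      ← Algebra.smul_def]
    simp [Pi.map, Mr]
  rw [h1, ← h0]
  exact hc

end lead

section ind

open Pool.Agent.K3h48.MN (ind ind_one ind_mul ind_zero ssum ssum_one ssum_mul ssum_neg_one ssum_inv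
  ssum_prime)

variable {ℓ p : ℕ} [hp : Fact p.Prime] (χ : (ZMod p)ˣ →* Multiplicative (ZMod ℓ))

lemma ind_lead_mul {c c' : ℚ_[p]} (hc : c ≠ 0) (hc' : c' ≠ 0) :
    ind χ (lead (c * c')) = ind χ (lead c) + ind χ (lead c') := by
  rw [lead_mul hc hc', ind_mul χ (lead_ne hc) (lead_ne hc')]

lemma ind_lead_one : ind χ (lead (1 : ℚ_[p])) = 0 := by
  rw [lead_one, ind_one]

lemma ind_lead_inv {c : ℚ_[p]} (hc : c ≠ 0) : ind χ (lead c⁻¹) = - ind χ (lead c) := by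
  have h := ind_lead_mul χ hc (inv_ne_zero hc)
  rw [mul_inv_cancel₀ hc, ind_lead_one] at h
  exact eq_neg_iff_add_eq_zero.2 (by rw [add_comm]; exact h.symm)

lemma ind_lead_nat (n : ℕ) (hn : n ≠ 0) :
    ind χ (lead (n : ℚ_[p])) = ssum (fun r => ind χ (r : ZMod p)) (n : ℚ) := by
  induction n using Nat.recOnMul with
  | zero => exact absurd rfl hn
  | one => rw [Nat.cast_one, ind_lead_one, Nat.cast_one, ssum_one]
  | prime r hr =>
    rw [ssum_prime _ hr]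
    by_cases h : r = p
    · subst h
      rw [lead_self, ind_one, ZMod.natCast_self, ind_zero]
    · rw [lead_nat]
      intro h1
      exact h ((Nat.prime_dvd_prime_iff_eq hp.out hr).1 h1).symm
  | mul a b iha ihb =>
    have ha : a ≠ 0 := left_ne_zero_of_mul hn
    have hb : b ≠ 0 := right_ne_zero_of_mul hn
    rw [Nat.cast_mul, ind_lead_mul χ (Nat.cast_ne_zero.2 ha) (Nat.cast_ne_zero.2 hb), iha ha, ihb hb,
      Nat.cast_mul, ssum_mul _ (Nat.cast_ne_zero.2 ha) (Nat.cast_ne_zero.2 hb)]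

lemma ind_lead_rat (hneg : ind χ (-1) = 0) {a : ℚ} (ha : a ≠ 0) :
    ind χ (lead (a : ℚ_[p])) = ssum (fun r => ind χ (r : ZMod p)) a := by
  have hz : ∀ z : ℤ, z ≠ 0 →
      ind χ (lead (z : ℚ_[p])) = ssum (fun r => ind χ (r : ZMod p)) (z : ℚ) := by
    intro z hz
    have hn : z.natAbs ≠ 0 := Int.natAbs_ne_zero.2 hz
    rcases Int.natAbs_eq z with h1 | h1
    · rw [h1, Int.cast_natCast, Int.cast_natCast, ind_lead_nat χ _ hn]
    · rw [h1, Int.cast_neg, Int.cast_natCast, Int.cast_neg, Int.cast_natCast,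
        ← neg_one_mul (z.natAbs : ℚ_[p]), ← neg_one_mul (z.natAbs : ℚ),
        ind_lead_mul χ (by norm_num) (Nat.cast_ne_zero.2 hn), lead_neg_one, hneg,
        ssum_mul _ (by norm_num) (Nat.cast_ne_zero.2 hn), ssum_neg_one, ind_lead_nat χ _ hn]
  have hd1 : (a.den : ℚ) ≠ 0 := Nat.cast_ne_zero.2 a.den_nz
  have hn0 : a.num ≠ 0 := Rat.num_ne_zero.2 ha
  have hn1 : (a.num : ℚ) ≠ 0 := Int.cast_ne_zero.2 hn0
  have h4 : a = (a.num : ℚ) * ((a.den : ℚ))⁻¹ := by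
    rw [← div_eq_mul_inv]; exact (Rat.num_div_den a).symm
  have h5 : (a : ℚ_[p]) = (a.num : ℚ_[p]) * ((a.den : ℚ_[p]))⁻¹ := by
    conv_lhs => rw [h4]
    push_cast
    rfl
  have h6 : ((a.den : ℕ) : ℚ_[p]) ≠ 0 := Nat.cast_ne_zero.2 a.den_nz
  rw [h5, ind_lead_mul χ (Int.cast_ne_zero.2 hn0) (inv_ne_zero h6), ind_lead_inv χ h6, hz _ hn0,
    ind_lead_nat χ _ a.den_nz]
  conv_rhs => rw [h4]
  rw [ssum_mul _ hn1 (inv_ne_zero hd1), ssum_inv _ hd1]

end ind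

end Pool.Agent.K3h48.BM
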