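import Pool.Agent.K3h48.BM.Points

/-!
# Places and norms
-/

set_option autoImplicit false
set_option linter.unusedSectionVars false

namespace Pool.Agent.K3h48.BM

open Polynomial
open scoped TensorProduct

universe u v

section norm_pi

variable {K : Type*} [Field K] {I : Type*} [Fintype I] [DecidableEq I] (S : I → Type*)
  [∀ i, CommRing (S i)] [∀ i, Algebra K (S i)] [∀ i, FiniteDimensional K (S i)]

theorem norm_pi (x : ∀ i, S i) : Algebra.norm K x = ∏ i, Algebra.norm K (x i) := by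
  classical
  let b := fun i => Module.finBasis K (S i)
  let lo : LinearOrder I := LinearOrder.lift' (Fintype.equivFin I) (Fintype.equivFin I).injective
  rw [Algebra.norm_eq_matrix_det (Pi.basis b)]
  have hij : ∀ (i i' : I) (j : Fin (Module.finrank K (S i))) (j' : Fin (Module.finrank K (S i'))),
      i ≠ i' → Algebra.leftMulMatrix (Pi.basis b) x ⟨i, j⟩ ⟨i', j'⟩ = 0 := by
    intro i i' j j' h
    rw [Algebra.leftMulMatrix_eq_repr_mul, Pi.basis_repr, Pi.basis_apply, Pi.mul_apply,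
      Pi.single_eq_of_ne h, mul_zero, map_zero]
    rfl
  have hii : ∀ (i : I) (j j' : Fin (Module.finrank K (S i))),
      Algebra.leftMulMatrix (Pi.basis b) x ⟨i, j⟩ ⟨i, j'⟩ =
        Algebra.leftMulMatrix (b i) (x i) j j' := by
    intro i j j'
    rw [Algebra.leftMulMatrix_eq_repr_mul, Pi.basis_repr, Pi.basis_apply, Pi.mul_apply,
      Pi.single_eq_same, Algebra.leftMulMatrix_eq_repr_mul]
  have hbt : (Algebra.leftMulMatrix (Pi.basis b) x).BlockTriangular Sigma.fst := by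
    rintro ⟨i, j⟩ ⟨i', j'⟩ h
    exact hij i i' j j' (ne_of_gt h)
  rw [hbt.det_fintype]
  refine Finset.prod_congr rfl fun i _ => ?_
  rw [Algebra.norm_eq_matrix_det (b i),
    ← Matrix.det_submatrix_equiv_self (Equiv.sigmaSubtype i).symm]
  congr 1
  ext j j'
  exact hii i j j'

end norm_pi

section places

variable (K : Type u) [Field K] [CharZero K] (k : Type v) [Field k] [NumberField k]

/-- the places of `k` above the given place of `ℚ` with completion `K` -/
abbrev Place : Type _ := MaximalSpectrum (K ⊗[ℚ] k)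

variable {K k}

/-- the completion at a place -/
abbrev Comp (v : Place K k) : Type _ := (K ⊗[ℚ] k) ⧸ v.asIdeal

noncomputable instance instFieldComp (v : Place K k) : Field (Comp v) :=
  Ideal.Quotient.field v.asIdeal

/-- the embedding of `k` in the completion -/
noncomputable def emb (v : Place K k) : k →+* Comp v :=
  (Ideal.Quotient.mk v.asIdeal).comp (Algebra.TensorProduct.includeRight : k →ₐ[ℚ] K ⊗[ℚ] k).toRingHom

instance instFin : FiniteDimensional K (K ⊗[ℚ] k) := inferInstance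

instance instFinComp (v : Place K k) : FiniteDimensional K (Comp v) := inferInstance

instance instArt : IsArtinianRing (K ⊗[ℚ] k) := IsArtinianRing.of_finite K _

instance instRed : IsReduced (K ⊗[ℚ] k) := by
  have : Algebra.FormallyUnramified ℚ k := Algebra.FormallyUnramified.of_isSeparable ℚ k
  exact Algebra.FormallyUnramified.isReduced_of_field K _

noncomputable instance instFintype : Fintype (Place K k) := Fintype.ofFinite _

theorem norm_places (a : k) :
    ∏ v : Place K k, Algebra.norm K (emb v a) = algebraMap ℚ K (Algebra.norm ℚ a) := by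
  classical
  let e : (K ⊗[ℚ] k) ≃ₐ[K] ∀ v : Place K k, Comp v :=
    (IsArtinianRing.equivPi (K ⊗[ℚ] k)).restrictScalars K
  have h1 : Algebra.norm K (e ((1 : K) ⊗ₜ[ℚ] a)) = Algebra.norm K ((1 : K) ⊗ₜ[ℚ] a) :=
    Algebra.norm_eq_of_algEquiv e _
  have h2 : Algebra.norm K ((1 : K) ⊗ₜ[ℚ] a) = algebraMap ℚ K (Algebra.norm ℚ a) := by
    rw [Algebra.norm_apply, Algebra.norm_apply, ← LinearMap.det_baseChange]
    congr 1
    ext x
    simp
  rw [← h2, ← h1, norm_pi]
  rfl

end places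

section integral

variable {r : ℕ} [hr : Fact r.Prime] {E : Type*} [Field E] [Algebra ℚ_[r] E]
  [FiniteDimensional ℚ_[r] E]

lemma norm_le_one {z : E} (hz : IsIntegral ℤ z) : ‖Algebra.norm ℚ_[r] z‖ ≤ 1 := by
  have h1 : IsIntegral ℤ (Algebra.norm ℚ_[r] z) := Algebra.isIntegral_norm ℚ_[r] hz
  have h2 : IsIntegral ℤ_[r] (Algebra.norm ℚ_[r] z) := h1.tower_top
  obtain ⟨y, hy⟩ := IsIntegrallyClosed.isIntegral_iff.1 h2
  rw [← hy]
  exact y.2

lemma exists_multiple {L : Type*} [Field L] [NumberField L] (b : L) :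
    ∃ d : ℤ, d ≠ 0 ∧ IsIntegral ℤ ((d : L) * b) := by
  have h : IsAlgebraic ℤ b :=
    (IsFractionRing.isAlgebraic_iff ℤ ℚ L).2 (Algebra.IsAlgebraic.isAlgebraic b)
  obtain ⟨d, hd, h1⟩ := h.exists_integral_multiple
  refine ⟨d, hd, ?_⟩
  rwa [zsmul_eq_mul] at h1

lemma norm_eq_one {L : Type*} [Field L] [NumberField L] (ι : L →+* E) {b : L} (hb : b ≠ 0)
    {d d' : ℤ} (h1 : IsIntegral ℤ ((d : L) * b)) (h2 : IsIntegral ℤ ((d' : L) * b⁻¹))
    (hd : ¬ (r : ℤ) ∣ d) (hd' : ¬ (r : ℤ) ∣ d') : ‖Algebra.norm ℚ_[r] (ι b)‖ = 1 := by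
  have key : ∀ {c : L} {e : ℤ}, IsIntegral ℤ ((e : L) * c) → ¬ (r : ℤ) ∣ e →
      ‖Algebra.norm ℚ_[r] (ι c)‖ ≤ 1 := by
    intro c e h3 h4
    have h5 : ‖Algebra.norm ℚ_[r] (ι ((e : L) * c))‖ ≤ 1 :=
      norm_le_one (h3.map ι.toIntAlgHom)
    have h6 : (ι ((e : L) * c)) = algebraMap ℚ_[r] E (e : ℚ_[r]) * ι c := by
      rw [map_mul, map_intCast, map_intCast]
    have h7 : ‖(e : ℚ_[r])‖ = 1 := by
      refine le_antisymm (Padic.norm_int_le_one e) ?_
      by_contra h8
      exact h4 (Padic.norm_intCast_lt_one_iff.1 (not_le.1 h8))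
    rwa [h6, map_mul, Algebra.norm_algebraMap, norm_mul, norm_pow, h7, one_pow, one_mul] at h5
  have h3 := key h1 hd
  have h4 := key h2 hd'
  refine le_antisymm h3 ?_
  have h5 : ‖Algebra.norm ℚ_[r] (ι b)‖ * ‖Algebra.norm ℚ_[r] (ι b⁻¹)‖ = 1 := by
    rw [← norm_mul, ← map_mul, ← map_mul, mul_inv_cancel₀ hb, map_one, map_one, norm_one]
  calc (1 : ℝ) = ‖Algebra.norm ℚ_[r] (ι b)‖ * ‖Algebra.norm ℚ_[r] (ι b⁻¹)‖ := h5.symm
    _ ≤ ‖Algebra.norm ℚ_[r] (ι b)‖ * 1 := mul_le_mul_of_nonneg_left h4 (norm_nonneg _)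
    _ = _ := mul_one _

end integral

section finite

theorem val_zero {L : Type u} [Field L] [NumberField L] {b : L} (hb : b ≠ 0) :
    ∃ S : Finset ℕ, ∀ (r : ℕ) [Fact r.Prime], r ∉ S → ∀ (E : Type v) [Field E] [Algebra ℚ_[r] E]
      [FiniteDimensional ℚ_[r] E] (ι : L →+* E), (Algebra.norm ℚ_[r] (ι b)).valuation = 0 := by
  obtain ⟨d, hd, h1⟩ := exists_multiple b
  obtain ⟨d', hd', h2⟩ := exists_multiple b⁻¹
  refine ⟨d.natAbs.primeFactors ∪ d'.natAbs.primeFactors, ?_⟩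
  intro r hr hrS E _ _ _ ι
  rw [Finset.mem_union, not_or] at hrS
  have h3 : ∀ {e : ℤ}, e ≠ 0 → r ∉ e.natAbs.primeFactors → ¬ (r : ℤ) ∣ e := by
    intro e he h4 h5
    exact h4 (Nat.mem_primeFactors.2 ⟨hr.out, Int.natCast_dvd.1 h5, Int.natAbs_ne_zero.2 he⟩)
  have h4 := norm_eq_one ι hb h1 h2 (h3 hd hrS.1) (h3 hd' hrS.2)
  have h5 : Algebra.norm ℚ_[r] (ι b) ≠ 0 := Algebra.norm_ne_zero_iff.2 ((_root_.map_ne_zero ι).2 hb)
  rw [Padic.norm_eq_zpow_neg_valuation h5] at h4
  have h6 : (1 : ℝ) < r := by exact_mod_cast hr.out.one_lt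
  have h7 : (r : ℝ) ^ (-(Algebra.norm ℚ_[r] (ι b)).valuation) = (r : ℝ) ^ (0 : ℤ) := by
    rw [h4, zpow_zero]
  have h8 := zpow_right_injective₀ (by positivity) h6.ne' h7
  omega

instance instFactPrimes (r : Nat.Primes) : Fact (r : ℕ).Prime := ⟨r.2⟩

theorem finsum_sigma {I : Type*} {J : I → Type*} [∀ r, Finite (J r)] {M : Type*}
    [AddCommMonoid M] {f : (Σ r, J r) → M} (h : {x | f x ≠ 0}.Finite) :
    ∑ᶠ x, f x = ∑ᶠ r, ∑ᶠ v, f ⟨r, v⟩ := by
  classical
  have := fun r => Fintype.ofFinite (J r)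
  set T := h.toFinset.image Sigma.fst with hT
  have hmem : ∀ r v, f ⟨r, v⟩ ≠ 0 → r ∈ T := fun r v hrv =>
    Finset.mem_image.2 ⟨⟨r, v⟩, h.mem_toFinset.2 hrv, rfl⟩
  rw [finsum_eq_sum_of_support_subset (s := T.sigma fun r => (Finset.univ : Finset (J r))),
    finsum_eq_sum_of_support_subset (s := T), Finset.sum_sigma]
  · exact Finset.sum_congr rfl fun r _ => (finsum_eq_sum_of_fintype _).symm
  · intro r hr
    rw [Finset.mem_coe]
    by_contra hr'
    apply hr
    beta_reduce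
    refine (finsum_congr fun v => ?_).trans finsum_zero
    by_contra hv
    exact hr' (hmem r v hv)
  · rintro ⟨r, v⟩ hrv
    rw [Finset.mem_coe, Finset.mem_sigma]
    exact ⟨hmem r v hrv, Finset.mem_univ _⟩

theorem finite_places {L : Type u} [Field L] [NumberField L] {M : Type*} [AddCommMonoid M]
    (b : L) (hb : b ≠ 0) {p : ℕ} {f : (Σ r : Nat.Primes, Place ℚ_[(r : ℕ)] L) → M}
    (hf : ∀ x, (x.1 : ℕ) ≠ p → (Algebra.norm ℚ_[(x.1 : ℕ)] (emb x.2 b)).valuation = 0 → f x = 0) :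
    {x | f x ≠ 0}.Finite := by
  classical
  obtain ⟨S, hS⟩ := val_zero.{u, u} hb
  have hfin : {r : Nat.Primes | (r : ℕ) ∈ insert p S}.Finite :=
    ((insert p S).finite_toSet.preimage (Subtype.val_injective.injOn)).subset fun r hr => hr
  have hfin2 : (hfin.toFinset.sigma fun r : Nat.Primes =>
      (Finset.univ : Finset (Place ℚ_[(r : ℕ)] L)) : Set (Σ r : Nat.Primes,
        Place ℚ_[(r : ℕ)] L)).Finite := Finset.finite_toSet _
  refine hfin2.subset ?_
  rintro ⟨r, v⟩ hrv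
  rw [Finset.mem_coe, Finset.mem_sigma]
  refine ⟨?_, Finset.mem_univ _⟩
  rw [Set.Finite.mem_toFinset]
  by_contra hr
  apply hrv
  have hr' : (r : ℕ) ∉ insert p S := hr
  rw [Finset.mem_insert, not_or] at hr'
  exact hf ⟨r, v⟩ hr'.1 (hS r hr'.2 _ (emb v))

open Pool.Agent.K3h48.MN (ssum val_eq_zero)

theorem sum_places {ℓ : ℕ} (w : ℕ → ZMod ℓ) {L : Type u} [Field L] [NumberField L] {b : L}
    (hb : b ≠ 0) :
    ∑ᶠ r : Nat.Primes, ∑ᶠ v : Place ℚ_[(r : ℕ)] L,
      (((Algebra.norm ℚ_[(r : ℕ)] (emb v b)).valuation : ℤ) : ZMod ℓ) * w r =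
      ssum w (Algebra.norm ℚ b) := by
  classical
  have hNb : Algebra.norm ℚ b ≠ 0 := Algebra.norm_ne_zero_iff.2 hb
  have h1 : ∀ r : Nat.Primes, ∑ᶠ v : Place ℚ_[(r : ℕ)] L,
      (((Algebra.norm ℚ_[(r : ℕ)] (emb v b)).valuation : ℤ) : ZMod ℓ) * w r =
      ((padicValRat r (Algebra.norm ℚ b) : ℤ) : ZMod ℓ) * w r := by
    intro r
    rw [finsum_eq_sum_of_fintype, ← Finset.sum_mul, ← Int.cast_sum, ← val_prod, norm_places,
      eq_ratCast, Padic.valuation_ratCast]
    intro v _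
    exact Algebra.norm_ne_zero_iff.2 ((_root_.map_ne_zero _).2 hb)
  rw [finsum_congr h1, ssum]
  set T := ((Algebra.norm ℚ b).num.natAbs * (Algebra.norm ℚ b).den).primeFactors with hT
  let φ : {r // r ∈ T} ↪ Nat.Primes := ⟨fun r => ⟨r.1, (Nat.mem_primeFactors.1 r.2).1⟩,
    fun x y h => Subtype.ext (congrArg (fun z : Nat.Primes => (z : ℕ)) h)⟩
  let s : Finset Nat.Primes := T.attach.map φ
  rw [finsum_eq_sum_of_support_subset (s := s)]
  · rw [Finset.sum_map]
    exact Finset.sum_attach T fun r => ((padicValRat r (Algebra.norm ℚ b) : ℤ) : ZMod ℓ) * w r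
  · intro r hr
    by_contra h
    apply hr
    beta_reduce
    have h2 : (r : ℕ) ∉ T := by
      intro h3
      apply h
      rw [Finset.mem_coe, Finset.mem_map]
      exact ⟨⟨r, h3⟩, Finset.mem_attach _ _, rfl⟩
    rw [val_eq_zero hNb r.2 h2, Int.cast_zero, zero_mul]

end finite

section reciprocity

open Pool.Agent.K3h48.MN (ind ssum val_eq_zero Good ind_zero)

variable {ℓ p : ℕ} [hp : Fact p.Prime] {χ : (ZMod p)ˣ →* Multiplicative (ZMod ℓ)}

lemma linv_mul {r : ℕ} [hr : Fact r.Prime] {c c' : ℚ_[r]} (hc : c ≠ 0) (hc' : c' ≠ 0) :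
    linv χ (c * c') = linv χ c + linv χ c' := by
  by_cases h : r = p
  · subst h
    rw [linv_p, linv_p, linv_p, ind_lead_mul χ hc hc', neg_add]
  · rw [linv_ne h, linv_ne h, linv_ne h, Padic.valuation_mul hc hc']
    push_cast
    ring

lemma linv_one {r : ℕ} [hr : Fact r.Prime] : linv χ (1 : ℚ_[r]) = 0 := by
  have h := linv_mul (χ := χ) (c := (1 : ℚ_[r])) one_ne_zero one_ne_zero
  rw [mul_one] at h
  exact left_eq_add.1 h

lemma linv_prod {r : ℕ} [hr : Fact r.Prime] {I : Type*} (s : Finset I) (f : I → ℚ_[r])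
    (h : ∀ i ∈ s, f i ≠ 0) : linv χ (∏ i ∈ s, f i) = ∑ i ∈ s, linv χ (f i) := by
  classical
  induction s using Finset.induction_on with
  | empty => rw [Finset.prod_empty, Finset.sum_empty, linv_one]
  | insert i s hi ih =>
    rw [Finset.prod_insert hi, Finset.sum_insert hi, linv_mul
      (h i (Finset.mem_insert_self i s))
      (Finset.prod_ne_zero_iff.2 fun j hj => h j (Finset.mem_insert_of_mem hj)),
      ih fun j hj => h j (Finset.mem_insert_of_mem hj)]

/-- the reciprocity law over `ℚ` -/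
theorem reciprocity_rat (hneg : ind χ (-1) = 0) {c : ℚ} (hc : c ≠ 0) :
    ∑ᶠ r : Nat.Primes, linv χ (c : ℚ_[(r : ℕ)]) = 0 := by
  classical
  set T := (c.num.natAbs * c.den).primeFactors ∪ {p} with hT
  have hTp : ∀ r ∈ T, r.Prime := by
    intro r hr
    rw [hT, Finset.mem_union, Finset.mem_singleton] at hr
    rcases hr with hr | rfl
    · exact (Nat.mem_primeFactors.1 hr).1
    · exact hp.out
  let φ : {r // r ∈ T} ↪ Nat.Primes := ⟨fun r => ⟨r.1, hTp _ r.2⟩,
    fun x y h => Subtype.ext (congrArg (fun z : Nat.Primes => (z : ℕ)) h)⟩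
  have h1 : ∀ r : Nat.Primes, linv χ (c : ℚ_[(r : ℕ)]) =
      if (r : ℕ) = p then - ind χ (lead (c : ℚ_[p]))
      else ((padicValRat r c : ℤ) : ZMod ℓ) * ind χ ((r : ℕ) : ZMod p) := by
    rintro ⟨r, hr⟩
    have : Fact r.Prime := ⟨hr⟩
    change linv χ (c : ℚ_[r]) = if r = p then _ else _
    by_cases h : r = p
    · subst h
      rw [if_pos rfl, linv_p]
    · rw [if_neg h, linv_ne h, Padic.valuation_ratCast]
  have h2 : ∀ r : ℕ, (if r = p then - ind χ (lead (c : ℚ_[p]))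
      else ((padicValRat r c : ℤ) : ZMod ℓ) * ind χ ((r : ℕ) : ZMod p)) =
      (if r = p then - ind χ (lead (c : ℚ_[p])) else 0) +
        ((padicValRat r c : ℤ) : ZMod ℓ) * ind χ ((r : ℕ) : ZMod p) := by
    intro r
    by_cases h : r = p
    · subst h
      rw [if_pos rfl, if_pos rfl, ZMod.natCast_self, ind_zero, mul_zero, add_zero]
    · rw [if_neg h, if_neg h, zero_add]
  rw [finsum_congr h1, finsum_eq_sum_of_support_subset (s := T.attach.map φ)]
  · rw [Finset.sum_map]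
    have h3 := Finset.sum_attach T fun r : ℕ => if r = p then - ind χ (lead (c : ℚ_[p]))
      else ((padicValRat r c : ℤ) : ZMod ℓ) * ind χ ((r : ℕ) : ZMod p)
    refine h3.trans ?_
    rw [Finset.sum_congr rfl fun r _ => h2 r, Finset.sum_add_distrib, Finset.sum_ite_eq',
      if_pos (by rw [hT, Finset.mem_union, Finset.mem_singleton]; exact Or.inr rfl),
      ind_lead_rat χ hneg hc, ssum]
    have h4 := Finset.sum_subset (s₁ := (c.num.natAbs * c.den).primeFactors) (s₂ := T)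
      (f := fun r => ((padicValRat r c : ℤ) : ZMod ℓ) * ind χ ((r : ℕ) : ZMod p))
      (by rw [hT]; exact Finset.subset_union_left) (by
        intro r hr hr'
        rw [val_eq_zero hc (hTp r hr) hr', Int.cast_zero, zero_mul])
    rw [h4, neg_add_cancel]
  · intro r hr
    by_contra h
    apply hr
    beta_reduce
    have h2 : (r : ℕ) ∉ T := by
      intro h3
      apply h
      rw [Finset.mem_coe, Finset.mem_map]
      exact ⟨⟨r, h3⟩, Finset.mem_attach _ _, rfl⟩
    rw [hT, Finset.mem_union, Finset.mem_singleton, not_or] at h2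
    rw [if_neg h2.2, val_eq_zero hc r.2 h2.1, Int.cast_zero, zero_mul]

/-- the reciprocity law over number fields -/
theorem reciprocity (hneg : ind χ (-1) = 0) {L : Type u} [Field L] [NumberField L] {b : L}
    (hb : b ≠ 0) :
    ∑ᶠ r : Nat.Primes, ∑ᶠ v : Place ℚ_[(r : ℕ)] L,
      linv χ (Algebra.norm ℚ_[(r : ℕ)] (emb v b)) = 0 := by
  classical
  have hNb : Algebra.norm ℚ b ≠ 0 := Algebra.norm_ne_zero_iff.2 hb
  rw [← reciprocity_rat hneg hNb]
  refine finsum_congr fun r => ?_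
  rw [finsum_eq_sum_of_fintype, ← linv_prod, norm_places, eq_ratCast]
  intro v _
  exact Algebra.norm_ne_zero_iff.2 ((_root_.map_ne_zero _).2 hb)

end reciprocity

end Pool.Agent.K3h48.BM
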