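import Pool.Agent.K3h48.BM.Core
import Pool.Agent.K3h48.MN.Ext

/-!
# The local invariants at points
-/

set_option autoImplicit false
set_option linter.unusedSectionVars false

namespace Pool.Agent.K3h48.BM

open Polynomial IntermediateField
open Pool.Agent.K3h48.MN

universe u v

section val

variable {k : Type*} {E : Type*} [Field k] [Field E] {I : Type*} [Fintype I]

/-- the value of the function `∏ g, g ∈ G i`, at points of the curve `a y^n = f(x)`, up to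
`ℓ`-th powers -/
noncomputable def val (ι : k →+* E) (a : k) (G : I → Finset k[X]) (x : E) (i : I) : E :=
  open scoped Classical in
  if ∏ g ∈ G i, eval₂ ι x g = 0 then
    ι a / ∏ j ∈ Finset.univ.erase i, ∏ g ∈ G j, eval₂ ι x g
  else ∏ g ∈ G i, eval₂ ι x g

lemma eval_f (ι : k →+* E) (G : I → Finset k[X]) (x : E) :
    eval₂ ι x (∏ i, ∏ g ∈ G i, g) = ∏ i, ∏ g ∈ G i, eval₂ ι x g := by
  rw [eval₂_finsetProd]
  exact Finset.prod_congr rfl fun i _ => eval₂_finsetProd _ _ _ _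

lemma sep_ne (ι : k →+* E) {G : I → Finset k[X]} (hsep : (∏ i, ∏ g ∈ G i, g).Separable) (x : E)
    {i j : I} (hij : i ≠ j) (hi : ∏ g ∈ G i, eval₂ ι x g = 0) : ∏ g ∈ G j, eval₂ ι x g ≠ 0 := by
  classical
  intro hj
  have h1 : (∏ g ∈ G i, g) * (∏ g ∈ G j, g) ∣ ∏ i, ∏ g ∈ G i, g := by
    have h2 : (∏ l ∈ ({i, j} : Finset I), ∏ g ∈ G l, g) ∣ ∏ l, ∏ g ∈ G l, g :=
      Finset.prod_dvd_prod_of_subset _ _ _ (Finset.subset_univ _)
    rwa [Finset.prod_pair hij] at h2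
  have h2 := (hsep.of_dvd h1).isCoprime
  have h3 : IsCoprime (eval₂ ι x (∏ g ∈ G i, g)) (eval₂ ι x (∏ g ∈ G j, g)) :=
    h2.map (eval₂RingHom ι x)
  rw [eval₂_finsetProd, eval₂_finsetProd, hi, hj, isCoprime_zero_left] at h3
  exact not_isUnit_zero h3

lemma val_ne (ι : k →+* E) {a : k} (ha : a ≠ 0) {G : I → Finset k[X]}
    (hsep : (∏ i, ∏ g ∈ G i, g).Separable) (x : E) (i : I) : val ι a G x i ≠ 0 := by
  classical
  rw [val]
  split_ifs with h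
  · refine div_ne_zero ((map_ne_zero ι).2 ha) (Finset.prod_ne_zero_iff.2 fun j hj => ?_)
    exact sep_ne ι hsep x (Finset.mem_erase.1 hj).1.symm h
  · exact h

lemma val_prod' (ι : k →+* E) {a : k} {G : I → Finset k[X]}
    (hsep : (∏ i, ∏ g ∈ G i, g).Separable) {ℓ n : ℕ} (hℓ : ℓ ≠ 0) (hn : ℓ ∣ n) {x y : E}
    (h : ι a * y ^ n = eval₂ ι x (∏ i, ∏ g ∈ G i, g)) :
    ∃ w : E, w ≠ 0 ∧ ∏ i, val ι a G x i = ι a * w ^ ℓ := by
  classical
  rw [eval_f] at h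
  by_cases h0 : ∃ i, ∏ g ∈ G i, eval₂ ι x g = 0
  · obtain ⟨i, hi⟩ := h0
    refine ⟨1, one_ne_zero, ?_⟩
    rw [one_pow, mul_one, ← Finset.mul_prod_erase _ _ (Finset.mem_univ i)]
    have h1 : ∀ j ∈ Finset.univ.erase i, val ι a G x j = ∏ g ∈ G j, eval₂ ι x g := by
      intro j hj
      rw [val, if_neg (sep_ne ι hsep x (Finset.mem_erase.1 hj).1.symm hi)]
    rw [Finset.prod_congr rfl h1, val, if_pos hi, div_mul_cancel₀]
    exact Finset.prod_ne_zero_iff.2 fun j hj =>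
      sep_ne ι hsep x (Finset.mem_erase.1 hj).1.symm hi
  · push Not at h0
    obtain ⟨n', rfl⟩ := hn
    refine ⟨y ^ n', ?_, ?_⟩
    · intro hy
      rw [mul_comm ℓ n', pow_mul, hy, zero_pow hℓ, mul_zero] at h
      exact (Finset.prod_ne_zero_iff.2 fun i _ => h0 i) h.symm
    · rw [← pow_mul, mul_comm n' ℓ, h]
      refine Finset.prod_congr rfl fun i _ => ?_
      rw [val, if_neg (h0 i)]

end val

section main

variable {ℓ p q : ℕ} [hℓ : Fact ℓ.Prime] [hp : Fact p.Prime] [hq : Fact q.Prime]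
  {χ : (ZMod p)ˣ →* Multiplicative (ZMod ℓ)} {ψ : (ZMod q)ˣ →* Multiplicative (ZMod ℓ)}
  {θ : Option (ZMod ℓ) → CyclotomicField (p * q) ℚ}

lemma alg : Algebra.IsAlgebraic ℚ (AlgebraicClosure ℚ) := by
  have h := AlgebraicClosure.isAlgebraic ℚ
  refine ⟨fun x => ?_⟩
  obtain ⟨f, hf, hx⟩ := h.1 x
  refine ⟨f, hf, ?_⟩
  rw [← hx, aeval_def, aeval_def]
  congr 1

/-- the generators in the algebraic closure of `ℚ` -/
theorem prep (hθ : ∀ i, GenBy χ ψ (cs i).1 (cs i).2 (θ i)) :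
    ∃ (ζ : AlgebraicClosure ℚ) (_ : IsPrimitiveRoot ζ (p * q)) (e : Option (ZMod ℓ) → ℚ[X]),
      (∀ i, Gn χ ψ (cs i).1 (cs i).2 ζ (e i)) ∧
      ∀ i, minpoly ℚ (aeval ζ (e i) : AlgebraicClosure ℚ) = minpoly ℚ (θ i) := by
  obtain ⟨ζ₀, hζ₀⟩ : ∃ ζ : CyclotomicField (p * q) ℚ, IsPrimitiveRoot ζ (p * q) :=
    ⟨_, IsCyclotomicExtension.zeta_spec (p * q) ℚ _⟩
  have hpos : 0 < p * q := Nat.pos_of_ne_zero pq_ne
  obtain ⟨ζ, hζ⟩ := exists_prim (AlgebraicClosure ℚ) hpos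
  have h1 := fun i => exists_g (hθ i) hζ₀
  choose e he1 he2 using h1
  refine ⟨ζ, hζ, e, fun i => (he2 i).transfer hζ₀ hζ, fun i => ?_⟩
  rw [← minpoly_transfer hpos hζ₀ hζ (e i), ← he1 i]

lemma poly_degree (hG : Good χ ψ) (hθ : ∀ i, GenBy χ ψ (cs i).1 (cs i).2 (θ i))
    {k : Type u} [Field k] [NumberField k] {a : k} (ha : Obs χ ψ a) (i : Option (ZMod ℓ)) :
    (minpoly ℚ (θ i)).natDegree = ℓ := by
  obtain ⟨ζ, hζ, e, he, hmove, -, hpoly, hnot⟩ := setup (A := AlgebraicClosure k) hG hθ ha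
    (fun _ => ∅) (fun i g hg => absurd hg (Finset.notMem_empty g))
  obtain ⟨σ, hσ⟩ := hmove i
  have hdeg : (minpoly k (aeval ζ (e i) : AlgebraicClosure k)).natDegree = ℓ :=
    roots_eq ((he i).fix_iff hζ) hσ
  rw [← hpoly i, natDegree_map] at hdeg
  exact hdeg

variable {k : Type u} [Field k] [NumberField k] {a : k}
  {r : ℕ} [hr : Fact r.Prime] {E : Type v} [Field E] [Algebra ℚ_[r] E] [FiniteDimensional ℚ_[r] E]

/-- the local invariants at affine points -/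
theorem affine (hG : Good χ ψ) (hθ : ∀ i, GenBy χ ψ (cs i).1 (cs i).2 (θ i)) (ha : Obs χ ψ a)
    {G : Option (ZMod ℓ) → Finset k[X]} (hGf : ∀ i, ∀ g ∈ G i, IsFactor (minpoly ℚ (θ i)) g)
    {n : ℕ} (hn : ℓ ∣ n) (ι : k →+* E) {x y : E}
    (h : ι a * y ^ n = eval₂ ι x (∏ i, ∏ g ∈ G i, g)) {m : ZMod ℓ} (hm : m ≠ 0) :
    linv χ (Algebra.norm ℚ_[r] (val ι a G x (some (-m)))) =
      (((Algebra.norm ℚ_[r] (ι a)).valuation : ℤ) : ZMod ℓ) * wt χ ψ m r := by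
  classical
  have := alg
  obtain ⟨hsep, -⟩ := final_separable hG hθ ha G hGf
  obtain ⟨ζ, hζ, e, he, hP⟩ := prep hθ
  have ha0 := ha.ne_zero
  obtain ⟨w, hw, hprod⟩ := val_prod' ι hsep hℓ.out.ne_zero hn h
  have hN : ∀ z : E, z ≠ 0 → Algebra.norm ℚ_[r] z ≠ 0 := fun z hz => Algebra.norm_ne_zero_iff.2 hz
  refine core hG hζ he hm (v := fun i => Algebra.norm ℚ_[r] (val ι a G x i))
    (w := Algebra.norm ℚ_[r] w) (fun j => hN _ (val_ne ι ha0 hsep x j)) ?_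
    (hN _ ((map_ne_zero ι).2 ha0)) (hN _ hw) ?_
  · intro j
    have hfac : ∀ g ∈ G j, IsFactor (minpoly ℚ (aeval ζ (e j) : AlgebraicClosure ℚ)) g := by
      intro g hg
      rw [hP j]
      exact hGf j g hg
    have hdeg : ∀ g ∈ G j, g.natDegree =
        (minpoly ℚ (aeval ζ (e j) : AlgebraicClosure ℚ)).natDegree := by
      intro g hg
      rw [hP j, factor_degree hG hθ ha (hGf j g hg), poly_degree hG hθ ha j]
    by_cases h0 : ∏ g ∈ G j, eval₂ ι x g = 0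
    · obtain ⟨g, hg, hg0⟩ := Finset.prod_eq_zero_iff.1 h0
      obtain ⟨t, ht⟩ := root_of_factor (r := r) ι (hfac g hg) (hdeg g hg) hg0
      exact IsN.root ht _
    · have h1 : val ι a G x j = ∏ g ∈ G j, eval₂ ι x g := by rw [val, if_neg h0]
      change IsN _ (Algebra.norm ℚ_[r] (val ι a G x j))
      rw [h1, map_prod]
      exact IsN.prod _ _ fun g hg => IsN.factor ι (hfac g hg) (hdeg g hg) x
  · change ∏ i, Algebra.norm ℚ_[r] (val ι a G x i) = _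
    rw [← map_prod, hprod, map_mul, map_pow]

/-- the local invariants at infinity -/
theorem infinite (hG : Good χ ψ) (hθ : ∀ i, GenBy χ ψ (cs i).1 (cs i).2 (θ i)) (ha : a ≠ 0)
    {n : ℕ} (hn : ℓ ∣ n) (ι : k →+* E) {y : E} (h : ι a * y ^ n = 1) {m : ZMod ℓ} (hm : m ≠ 0) :
    linv χ (Algebra.norm ℚ_[r] (1 : E)) =
      (((Algebra.norm ℚ_[r] (ι a)).valuation : ℤ) : ZMod ℓ) * wt χ ψ m r := by
  classical
  have := alg
  obtain ⟨ζ, hζ, e, he, hP⟩ := prep hθ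
  have hN : ∀ z : E, z ≠ 0 → Algebra.norm ℚ_[r] z ≠ 0 := fun z hz => Algebra.norm_ne_zero_iff.2 hz
  obtain ⟨n', rfl⟩ := hn
  have hy : y ^ n' ≠ 0 := by
    intro hy
    rw [mul_comm ℓ n', pow_mul, hy, zero_pow hℓ.out.ne_zero, mul_zero] at h
    exact zero_ne_one h
  refine core hG hζ he hm (v := fun i => Algebra.norm ℚ_[r] (1 : E))
    (w := Algebra.norm ℚ_[r] (y ^ n')) (fun j => hN _ one_ne_zero) ?_
    (hN _ ((map_ne_zero ι).2 ha)) (hN _ hy) ?_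
  · intro j
    rw [map_one]
    exact IsN.one _
  · change ∏ i : Option (ZMod ℓ), Algebra.norm ℚ_[r] (1 : E) = _
    rw [map_one, Finset.prod_const_one, ← map_pow, ← map_mul, ← pow_mul, mul_comm n' ℓ, h, map_one]

end main

end Pool.Agent.K3h48.BM
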